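import Pool.Agent.Helper13.BL.Pre

/-!
# `L_Ind` from `L_Con` and `L_Lagr`
-/

set_option autoImplicit false

open Polynomial Matrix Finset Filter

namespace Pool.Agent.Helper13.BL

open Pool.Agent.Helper62.BM Pool.Agent.Helper90.BM Pool.Agent.Helper61.BM Pool.Agent.Helper13.BM

/-- Package L9. -/
theorem l_Ind (hCon : L_Con) (hLagr : L_Lagr) : L_Ind := by
  intro g hg U C _ p _ _ hp Q P kap v hOk hE1 hE2 D hD τ hτ f' hf' hf'D Y hY hYr hYi
  classical
  -- the fields
  have hcast : ∀ (i : ℕ) (m : ℕ), 1 ≤ m → m < p i → ((m : ℕ) : KX (C i)) ≠ 0 := by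
    intro i m h1 h2 h3
    rw [CharP.cast_eq_zero_iff (KX (C i)) (p i)] at h3
    exact absurd (Nat.le_of_dvd h1 h3) (not_le.2 h2)
  have hC0 : CharZero (UP U fun i => KX (C i)) := Helper62.BM.charZero U fun m hm => by
    filter_upwards [hp m] with i hi
    exact hcast i m hm hi
  choose Df hDf _ using fun i => Pool.Agent.Helper12.BM.frac (KX (C i))
  have hev : ∀ i (q : (KX (C i))[X]), q.eval₂ (κ (KX (C i))) (tX (KX (C i))) = ι (KX (C i)) q := by
    intro i q
    have h1 : q.eval₂ (κ (KX (C i))) (tX (KX (C i))) =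
        ι (KX (C i)) (q.eval₂ (Polynomial.C : KX (C i) →+* (KX (C i))[X]) X) := by
      rw [Polynomial.hom_eval₂]
      rfl
    rw [h1, Polynomial.eval₂_C_X]
  obtain ⟨f, hf, hfD⟩ := Pool.Agent.Helper72.BM.emb U (fun i => KX (C i))
    (fun i => KX (KX (C i))) (fun i => κ (KX (C i))) (fun i => tX (KX (C i))) (by
      intro d
      refine Filter.Eventually.of_forall fun i q _ h => ?_
      rw [hev] at h
      exact (map_eq_zero_iff _ (IsFractionRing.injective (KX (C i))[X] (KX (KX (C i))))).1 h)
  have hf2 : ∀ q : Polynomial (∀ i, KX (C i)), f (ι _ (q.map (Helper62.BM.mk U))) =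
      Helper62.BM.mk U fun i => ι (KX (C i)) (q.map (Pi.evalRingHom (fun i => KX (C i)) i)) := by
    intro q
    rw [hf]
    congr 1
    funext i
    exact hev i _
  have hfD2 : ∀ (Dk : Der (KX (UP U fun i => KX (C i)))), IsDer Dk →
      ∀ z, f (Dk z) = der U Df (f z) := fun Dk hDk =>
    hfD Dk Df hDk (fun i y => D_κ (hDf i) y) (fun i => D_tX (hDf i))
  -- the data over the larger fields
  set Q' : ∀ i, Matrix (Fin (2 * g)) (Fin (2 * g)) (KX (C i)) := fun i => (Q i).map (cst (C i))
    with hQ'
  set P' : ∀ i, Matrix (Fin (2 * g)) (Fin (2 * g)) (KX (C i)) := fun i => (P i).map (cst (C i))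
    with hP'
  set kap' : ∀ i, Fin (2 * g) → KX (C i) := fun i j => cst (C i) (kap i j) with hkap'
  set v' : ∀ i, Fin (2 * g) → KX (C i) := fun i j => cst (C i) (v i j) with hv'
  have hP'det : ∀ i, (P' i).det ≠ 0 := by
    intro i
    have h1 : (P' i).det = cst (C i) (P i).det := (RingHom.map_det (cst (C i)) (P i)).symm
    rw [h1]
    exact (_root_.map_ne_zero _).2 (hOk i).2.1
  have hC := hCon g hg U (fun i => KX (C i)) p hp Q' P' kap' v' (fun i => ok_map _ (hOk i).1)
    hP'det (fun m => (hE1 m).mono fun i h => E1_map _ h)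
    (fun m hm => (hE2 m hm).mono fun i h => E2_map _ h) Df hDf f hf2 hfD2
  -- the data over the ultraproduct
  have hPh : (mkM U P').det ≠ 0 := mkM_det_ne U _ hP'det
  have hPhc : ((mkM U P').map (cst (UP U fun i => KX (C i)))).det ≠ 0 := by
    have h1 : ((mkM U P').map (cst (UP U fun i => KX (C i)))).det =
        cst (UP U fun i => KX (C i)) (mkM U P').det := (RingHom.map_det _ _).symm
    rw [h1]
    exact (_root_.map_ne_zero _).2 hPh
  set kh : Fin (2 * g) → UP U fun i => KX (C i) := fun j => Helper62.BM.mk U fun i => kap' i j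
    with hkh
  set vh : Fin (2 * g) → UP U fun i => KX (C i) := fun j => Helper62.BM.mk U fun i => v' i j
    with hvh
  set BK : Matrix (Fin (2 * g)) (Fin (2 * g)) (KX (UP U fun i => KX (C i))) :=
    (mkM U P').map (cst (UP U fun i => KX (C i))) * BqX (mkM U Q') kh vh *
      ((mkM U P').map (cst (UP U fun i => KX (C i))))⁻¹ with hBK
  -- the values of `f`
  have hft : f (tX (UP U fun i => KX (C i))) = Helper62.BM.mk U fun i => tX (KX (C i)) := by
    have := hf2 X
    rw [Polynomial.map_X] at this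
    rw [this]
    congr 1
    funext i
    rw [Polynomial.map_X]
  have hfc : ∀ z : ∀ i, KX (C i), f (cst (UP U fun i => KX (C i)) (Helper62.BM.mk U z)) =
      Helper62.BM.mk U fun i => cst (KX (C i)) (z i) := by
    intro z
    have := hf2 (Polynomial.C z)
    rw [Polynomial.map_C] at this
    refine this.trans ?_
    congr 1
    funext i
    rw [Polynomial.map_C]
    rfl
  have hfM : ∀ M : ∀ i, Matrix (Fin (2 * g)) (Fin (2 * g)) (KX (C i)),
      ((mkM U M).map (cst (UP U fun i => KX (C i)))).map f =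
        mkM U fun i => (M i).map (cst (KX (C i))) := by
    intro M
    ext a b
    exact hfc fun i => M i a b
  have hP''det : ∀ i, ((P' i).map (cst (KX (C i)))).det ≠ 0 := by
    intro i
    have h1 : ((P' i).map (cst (KX (C i)))).det = cst (KX (C i)) (P' i).det :=
      (RingHom.map_det _ _).symm
    rw [h1]
    exact (_root_.map_ne_zero _).2 (hP'det i)
  have hfB : BK.map f = mkM U fun i => (P' i).map (cst (KX (C i))) *
      BqX (Q' i) (kap' i) (v' i) * ((P' i).map (cst (KX (C i))))⁻¹ := by
    rw [hBK, Matrix.map_mul, Matrix.map_mul, inv_map f _ hPhc, hfM, mkM_mul, mkM_mul,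
      mkM_inv U _ hP''det]
    congr 2
    unfold BqX
    rw [Bq_map, hfM, mk_Bq, hft]
    congr 1
    · funext j
      exact hfc _
    · funext j
      exact hfc _
  -- the values of `f'`
  have hft' : f' (tX (UP U fun i => KX (C i))) = Helper62.BM.mk U fun i => tX (C i) := by
    have := hf' X
    rw [Polynomial.map_X] at this
    rw [this]
    congr 1
    funext i
    rw [Polynomial.map_X, Polynomial.eval₂_X]
  have hfc' : ∀ z : ∀ i, C i, f' (cst (UP U fun i => KX (C i))
      (Helper62.BM.mk U fun i => cst (C i) (z i))) =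
      Helper62.BM.mk U fun i => cst (C i) (z i) := by
    intro z
    have := hf' (Polynomial.C fun i => cst (C i) (z i))
    rw [Polynomial.map_C] at this
    refine this.trans ?_
    congr 1
    funext i
    rw [Polynomial.map_C, Polynomial.eval₂_C]
    show τ i (ι (C i) (Polynomial.C (z i))) = ι (C i) (Polynomial.C (z i))
    rw [hτ, Polynomial.expand_C]
  have hfM' : ∀ M : ∀ i, Matrix (Fin (2 * g)) (Fin (2 * g)) (C i),
      ((mkM U fun i => (M i).map (cst (C i))).map (cst (UP U fun i => KX (C i)))).map f' =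
        mkM U fun i => (M i).map (cst (C i)) := by
    intro M
    ext a b
    exact hfc' fun i => M i a b
  have hfB' : BK.map f' = mkM U fun i => (P i).map (cst (C i)) *
      BqX (Q i) (kap i) (v i) * ((P i).map (cst (C i)))⁻¹ := by
    rw [hBK, Matrix.map_mul, Matrix.map_mul, inv_map f' _ hPhc, hfM', mkM_mul, mkM_mul,
      mkM_inv U _ hP'det]
    congr 2
    unfold BqX
    rw [Bq_map, hfM', mk_Bq, hft']
    congr 1
    · funext j
      exact hfc' _
    · funext j
      exact hfc' _
  obtain ⟨Dk, hDk, -⟩ := Pool.Agent.Helper12.BM.frac (UP U fun i => KX (C i))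
  -- the frame
  have hY2 : ∀ j l, der U D (mkM U Y j l) = (mkM U Y * BK.map f') j l := by
    intro j l
    rw [hfB', ← mkM_mul, mkM_apply, mkM_apply, der_mk]
    congr 1
    funext i
    refine hor_Bx (D i) ((P i).map (cst (C i))) (BqX (Q i) (kap i) (v i)) (hP'det i)
      (fun r s => ?_) (Y i) (hY i) j l
    exact D_κ (hD i) _
  have hYr2 : ∀ c : Fin g → UP U fun i => KX (C i), c ᵥ* mkM U Y = 0 → c = 0 :=
    rank_up U Y hYr
  -- the bivector
  set S : ∀ i, Matrix (Fin (2 * g)) (Fin (2 * g)) (C i) := fun i => P i * Q i * (P i)ᵀ with hS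
  have hS1 : ∀ i a b, S i b a = - S i a b := by
    intro i a b
    have h1 : (S i)ᵀ = - S i := by
      rw [hS]
      simp only [Matrix.transpose_mul, Matrix.transpose_transpose, (hOk i).1.1]
      rw [Matrix.neg_mul, Matrix.mul_neg, Matrix.mul_assoc]
    exact congrFun (congrFun h1 a) b
  have hSc : (mkM U fun i => P' i * Q' i * (P' i)ᵀ) = mkM U fun i => (S i).map (cst (C i)) := by
    congr 1
    funext i
    rw [hS, hP', hQ']
    simp only [Matrix.map_mul, Matrix.transpose_map]
  rw [hSc] at hC
  set Q0 : Matrix (Fin (2 * g)) (Fin (2 * g)) (KX (UP U fun i => KX (C i))) :=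
    (mkM U fun i => (S i).map (cst (C i))).map (cst (UP U fun i => KX (C i))) with hQ0
  have hQ1 : Q0ᵀ = -Q0 := by
    ext a b
    show cst (UP U fun i => KX (C i)) (Helper62.BM.mk U fun i => cst (C i) (S i b a)) =
      - cst (UP U fun i => KX (C i)) (Helper62.BM.mk U fun i => cst (C i) (S i a b))
    rw [← map_neg, ← map_neg]
    congr 2
    funext i
    rw [hS1 i a b, map_neg]
    rfl
  have hQ2 : Q0.submatrix hi hi = 0 := by
    ext a b
    show cst (UP U fun i => KX (C i)) (Helper62.BM.mk U fun i => cst (C i) (S i (hi a) (hi b))) = 0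
    have h1 : (fun i => cst (C i) (S i (hi a) (hi b))) = 0 := by
      funext i
      have h2 : S i (hi a) (hi b) = 0 := congrFun (congrFun (hOk i).2.2.1 a) b
      rw [h2, map_zero]
      rfl
    rw [h1, map_zero, map_zero]
  have hQ3 : (Q0.submatrix lo hi).det ≠ 0 := by
    have h1 : Q0.submatrix lo hi = (mkM U fun i => ((S i).submatrix lo hi).map (cst (C i))).map
        (cst (UP U fun i => KX (C i))) := rfl
    have h2 : ((mkM U fun i => ((S i).submatrix lo hi).map (cst (C i))).map
        (cst (UP U fun i => KX (C i)))).det = cst (UP U fun i => KX (C i))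
          (mkM U fun i => ((S i).submatrix lo hi).map (cst (C i))).det :=
      (RingHom.map_det _ _).symm
    rw [h1, h2]
    refine (_root_.map_ne_zero _).2 (mkM_det_ne U _ fun i => ?_)
    have h3 : (((S i).submatrix lo hi).map (cst (C i))).det =
        cst (C i) ((S i).submatrix lo hi).det := (RingHom.map_det _ _).symm
    rw [h3]
    exact (_root_.map_ne_zero _).2 (hOk i).2.2.2
  let _ : Algebra (KX (UP U fun i => KX (C i))) (UP U fun i => KX (C i)) := f'.toAlgebra
  have hQf' : Q0.map (algebraMap (KX (UP U fun i => KX (C i))) (UP U fun i => KX (C i))) =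
      mkM U fun i => (S i).map (cst (C i)) := hfM' S
  have hst : ∀ A : Matrix (Fin (2 * g)) (Fin (2 * g)) (KX (UP U fun i => KX (C i))),
      A * Q0 + Q0 * Aᵀ = 0 →
      ∀ G : MvPolynomial (Fin g × Fin (2 * g)) (KX (UP U fun i => KX (C i))),
        MvPolynomial.aeval (fun s : Fin g × Fin (2 * g) => mkM U Y s.1 s.2) G = 0 →
        ∑ s : Fin g × Fin (2 * g), (mkM U Y * A.map
          (algebraMap (KX (UP U fun i => KX (C i))) (UP U fun i => KX (C i)))) s.1 s.2 *
          MvPolynomial.aeval (fun s : Fin g × Fin (2 * g) => mkM U Y s.1 s.2)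
            (MvPolynomial.pderiv s G) = 0 := by
    intro A hA G' hG'
    exact lemA f' f Dk (der U D) (der U Df) (hf'D Dk hDk) (hfD2 Dk hDk) BK (mkM U Y) hY2
      (mkM U fun i => pcv (Df i) ((P' i).map (cst (KX (C i))) * BqX (Q' i) (kap' i) (v' i) *
        ((P' i).map (cst (KX (C i))))⁻¹) (p i))
      (by
        intro T hT1 hT2 W hW1 hW2
        exact dpp U (fun i => KX (KX (C i))) p Df (fun i c => isDer_iter (hDf i) (p i) c) g (2 * g)
          (fun i => (P' i).map (cst (KX (C i))) * BqX (Q' i) (kap' i) (v' i) *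
            ((P' i).map (cst (KX (C i))))⁻¹) T hT1 (by
            intro s
            rw [hT2 s, hfB]) W hW1 hW2)
      A (fun θ hθ => hC A hA θ hθ) G' hG'
  have hiso : mkM U Y * Q0.map (algebraMap (KX (UP U fun i => KX (C i)))
      (UP U fun i => KX (C i))) * (mkM U Y)ᵀ = 0 := by
    rw [hQf', ← mkM_mul, ← mkM_transpose, ← mkM_mul]
    have h1 : (fun i => Y i * (S i).map (cst (C i)) * (Y i)ᵀ) = fun i => 0 := by
      funext i
      exact hYi i
    rw [h1]
    exact mk_zero U
  have hdet := hLagr (KX (UP U fun i => KX (C i))) (UP U fun i => KX (C i)) g Q0 (mkM U Y)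
    hQ1 hQ2 hQ3 hYr2 hiso hst
  have hdet2 : ∀ᶠ i in (U : Filter ℕ), ((Y i).submatrix id lo).det ≠ 0 := by
    have h1 : ((mkM U Y).submatrix id lo).det =
        Helper62.BM.mk U fun i => ((Y i).submatrix id lo).det :=
      mkM_det U fun i => (Y i).submatrix id lo
    rw [h1, Ne, mk_eq_zero, ← Ultrafilter.eventually_not] at hdet
    exact hdet
  refine ⟨hdet2, fun G hG => ?_⟩
  have hch := chart2 (KX (UP U fun i => KX (C i))) (UP U fun i => KX (C i)) g Q0 (mkM U Y)
    hQ1 hQ2 hQ3 hdet hst
  have hfin : MvPolynomial.aeval (frv (Q0.map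
      (algebraMap (KX (UP U fun i => KX (C i))) (UP U fun i => KX (C i)))) (mkM U Y)) G =
      (0 : UP U fun i => KX (C i)) := by
    have h1 : frv (Q0.map (algebraMap (KX (UP U fun i => KX (C i))) (UP U fun i => KX (C i))))
        (mkM U Y) = fun s : Vars g => Helper62.BM.mk U fun i =>
          frv ((P i * Q i * (P i)ᵀ).map (cst (C i))) (Y i) s := by
      rw [hQf']
      funext s
      exact mk_frv' U _ _ hdet2 s
    rw [h1]
    exact hG
  exact (injective_iff_map_eq_zero _).1 hch G hfin

end Pool.Agent.Helper13.BL
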