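import Pool.Agent.Helper13.BM.Chart
import Pool.Agent.Helper62.BM.LStm

/-!
# `L_Lagr`
-/

set_option autoImplicit false

open MvPolynomial Matrix Finset

namespace Pool.Agent.Helper13.BL

open Pool.Agent.Helper62.BM Pool.Agent.Helper13.BM

section mixed

variable {R : Type} [CommRing R] {g : ℕ}

/-- Some columns of `Y₁` are replaced by columns of `Y P`. -/
noncomputable def Mx (Y : Matrix (Fin g) (Fin (2 * g)) R) (P : Matrix (Fin (2 * g)) (Fin g) R)
    (I : Finset (Fin g)) : Matrix (Fin g) (Fin g) R :=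
  Matrix.of fun i j => if j ∈ I then (Y * P) i j else Y i (lo j)

theorem Mx_map {T : Type} [CommRing T] (ψ : R →+* T) (Y : Matrix (Fin g) (Fin (2 * g)) R)
    (P : Matrix (Fin (2 * g)) (Fin g) R) (I : Finset (Fin g)) :
    (Mx Y P I).map ψ = Mx (Y.map ψ) (P.map ψ) I := by
  ext i j
  simp only [Mx, Matrix.map_apply, Matrix.of_apply]
  split_ifs
  · rw [← Matrix.map_mul]
    rfl
  · rfl

theorem Mx_det {T : Type} [CommRing T] (ψ : R →+* T) (Y : Matrix (Fin g) (Fin (2 * g)) R)
    (P : Matrix (Fin (2 * g)) (Fin g) R) (I : Finset (Fin g)) :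
    ψ (Mx Y P I).det = (Mx (Y.map ψ) (P.map ψ) I).det := by
  rw [← Mx_map]
  exact RingHom.map_det ψ _

end mixed

section step

variable {k L : Type} [Field k] [Field L] [Algebra k L] {g : ℕ}

/-- the step: one more column -/
theorem step (Y : Matrix (Fin g) (Fin (2 * g)) L) (P : Matrix (Fin (2 * g)) (Fin g) k)
    (A : Matrix (Fin (2 * g)) (Fin (2 * g)) k) (j : Fin g)
    (hlo : ∀ i l, (Y * A.map (algebraMap k L)) i (lo l) =
      if l = j then (Y * P.map (algebraMap k L)) i j else 0)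
    (hP : (Y * A.map (algebraMap k L)) * P.map (algebraMap k L) = 0)
    (hder : ∀ G : MvPolynomial (Fin g × Fin (2 * g)) k,
        aeval (fun s : Fin g × Fin (2 * g) => Y s.1 s.2) G = 0 →
        ∑ s : Fin g × Fin (2 * g), (Y * A.map (algebraMap k L)) s.1 s.2 *
          aeval (fun s : Fin g × Fin (2 * g) => Y s.1 s.2) (pderiv s G) = 0)
    (I : Finset (Fin g)) (hj : j ∉ I) (h : (Mx Y (P.map (algebraMap k L)) I).det = 0) :
    (Mx Y (P.map (algebraMap k L)) (insert j I)).det = 0 := by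
  classical
  set Z := Y * A.map (algebraMap k L) with hZ
  set G : MvPolynomial (Fin g × Fin (2 * g)) k :=
    (Mx (Matrix.of fun i l => X (i, l)) (P.map (C (R := k) (σ := Fin g × Fin (2 * g)))) I).det
    with hG
  have h1 : aeval (fun s : Fin g × Fin (2 * g) => Y s.1 s.2) G = 0 := by
    rw [← h, hG]
    have h2 := Mx_det ((aeval (fun s : Fin g × Fin (2 * g) => Y s.1 s.2) :
      MvPolynomial (Fin g × Fin (2 * g)) k →ₐ[k] L) : MvPolynomial (Fin g × Fin (2 * g)) k →+* L)
      (Matrix.of fun i l => X (i, l)) (P.map (C (R := k) (σ := Fin g × Fin (2 * g)))) I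
    refine h2.trans ?_
    congr 2
    · ext i l
      simp
    · ext i l
      simp
  have h3 := hder G h1
  have h4 := taylor (fun s : Fin g × Fin (2 * g) => Y s.1 s.2)
    (fun s : Fin g × Fin (2 * g) => Z s.1 s.2) G
  rw [h1, h3] at h4
  have h5 := Mx_det ((aeval (fun s : Fin g × Fin (2 * g) => (TrivSqZeroExt.inl (Y s.1 s.2) +
    TrivSqZeroExt.inr (Z s.1 s.2) : TrivSqZeroExt L L)) :
      MvPolynomial (Fin g × Fin (2 * g)) k →ₐ[k] TrivSqZeroExt L L) :
        MvPolynomial (Fin g × Fin (2 * g)) k →+* TrivSqZeroExt L L)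
      (Matrix.of fun i l => X (i, l)) (P.map (C (R := k) (σ := Fin g × Fin (2 * g)))) I
  set inl' : L →+* TrivSqZeroExt L L := TrivSqZeroExt.inlHom L L with hinl
  set eps : TrivSqZeroExt L L := TrivSqZeroExt.inr 1 with heps
  have heps2 : ∀ x : L, (TrivSqZeroExt.inr x : TrivSqZeroExt L L) = eps * inl' x := by
    intro x
    ext
    · simp [heps, hinl]
    · simp [heps, hinl]
  have h6 : ((Matrix.of fun i l => X (i, l) : Matrix (Fin g) (Fin (2 * g))
      (MvPolynomial (Fin g × Fin (2 * g)) k)).map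
      (aeval (fun s : Fin g × Fin (2 * g) => (TrivSqZeroExt.inl (Y s.1 s.2) +
        TrivSqZeroExt.inr (Z s.1 s.2) : TrivSqZeroExt L L)))) = Y.map inl' + eps • Z.map inl' := by
    refine Matrix.ext fun i l => ?_
    simp only [Matrix.map_apply, Matrix.of_apply, aeval_X, Matrix.add_apply, Matrix.smul_apply,
      smul_eq_mul, heps2]
    rfl
  have h7 : ((P.map (C (R := k) (σ := Fin g × Fin (2 * g)))).map
      (aeval (fun s : Fin g × Fin (2 * g) => (TrivSqZeroExt.inl (Y s.1 s.2) +
        TrivSqZeroExt.inr (Z s.1 s.2) : TrivSqZeroExt L L)))) =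
      (P.map (algebraMap k L)).map inl' := by
    refine Matrix.ext fun i l => ?_
    simp only [Matrix.map_apply, algHom_C]
    rfl
  have h8 : (Mx (Y.map inl' + eps • Z.map inl') ((P.map (algebraMap k L)).map inl') I).det = 0 := by
    rw [← h6, ← h7]
    refine h5.symm.trans (h4.trans ?_)
    simp
  set P' := P.map (algebraMap k L) with hP'
  set M := Mx Y P' I with hM
  have h9 : Mx (Y.map inl' + eps • Z.map inl') (P'.map inl') I =
      (M.map inl').updateCol j ((fun i => M.map inl' i j) + eps • fun i => inl' ((Y * P') i j)) := by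
    refine Matrix.ext fun i l => ?_
    by_cases hlj : l = j
    · subst hlj
      rw [Matrix.updateCol_self]
      simp only [Mx, hM, Matrix.of_apply, Matrix.map_apply, if_neg hj, Pi.add_apply, Pi.smul_apply,
        smul_eq_mul, Matrix.add_apply, Matrix.smul_apply]
      rw [hlo, if_pos rfl]
    · rw [Matrix.updateCol_ne hlj]
      simp only [Mx, hM, Matrix.of_apply, Matrix.map_apply]
      split_ifs with hl
      · rw [Matrix.add_mul, Matrix.smul_mul, ← Matrix.map_mul, ← Matrix.map_mul, hP,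
          Matrix.add_apply, Matrix.smul_apply, Matrix.map_apply, Matrix.map_apply,
          Matrix.zero_apply, map_zero, smul_zero, add_zero]
      · simp only [Matrix.add_apply, Matrix.smul_apply, Matrix.map_apply, smul_eq_mul]
        rw [hlo, if_neg hlj, map_zero, mul_zero, add_zero]
  have h10 : (M.map inl').updateCol j (fun i => M.map inl' i j) = M.map inl' := by
    refine Matrix.ext fun i l => ?_
    by_cases hlj : l = j
    · subst hlj
      rw [Matrix.updateCol_self]
    · rw [Matrix.updateCol_ne hlj]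
  have h11 : (M.map inl').updateCol j (fun i => inl' ((Y * P') i j)) =
      (Mx Y P' (insert j I)).map inl' := by
    refine Matrix.ext fun i l => ?_
    by_cases hlj : l = j
    · subst hlj
      rw [Matrix.updateCol_self]
      simp [Mx]
    · rw [Matrix.updateCol_ne hlj]
      simp only [Mx, hM, Matrix.of_apply, Matrix.map_apply, Finset.mem_insert, hlj, false_or]
  have h12 : (M.map inl').det = 0 := by
    have : (M.map inl').det = inl' M.det := (RingHom.map_det inl' M).symm
    rw [this, h, map_zero]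
  have h13 : ((Mx Y P' (insert j I)).map inl').det = inl' (Mx Y P' (insert j I)).det :=
    (RingHom.map_det inl' _).symm
  rw [h9, Matrix.det_updateCol_add, Matrix.det_updateCol_smul, h10, h11, h12, h13, zero_add,
    ← heps2] at h8
  have h14 := congrArg TrivSqZeroExt.snd h8
  simpa using h14

end step

section main

variable {k L : Type} [Field k] [Field L] [Algebra k L] {g : ℕ}

/-- a mixed matrix is invertible -/
theorem mixed (Y1 Y2 : Matrix (Fin g) (Fin g) L) (hsym : Y1 * Y2ᵀ = Y2 * Y1ᵀ)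
    (hrk : ∀ c : Fin g → L, c ᵥ* Y1 = 0 → c ᵥ* Y2 = 0 → c = 0) :
    ∃ I : Finset (Fin g),
      (Matrix.of fun i j => if j ∈ I then Y2 i j else Y1 i j : Matrix (Fin g) (Fin g) L).det ≠ 0 := by
  classical
  obtain ⟨κ, a, ha, hspan, hli⟩ := exists_linearIndependent' L (fun j => Y1ᵀ j)
  have : Finite κ := Finite.of_injective a ha
  have := Fintype.ofFinite κ
  refine ⟨Finset.univ.filter fun j => j ∉ Set.range a, fun h0 => ?_⟩
  obtain ⟨c, hc0, hc⟩ := Matrix.exists_vecMul_eq_zero_iff.2 h0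
  apply hc0
  have h1 : ∀ j, j ∈ Set.range a → c ⬝ᵥ Y1ᵀ j = 0 := by
    intro j hj
    have h2 : ∑ i, c i * (if j ∈ Finset.univ.filter (fun j => j ∉ Set.range a) then Y2 i j
      else Y1 i j) = 0 := congrFun hc j
    simp only [Finset.mem_filter, Finset.mem_univ, true_and, not_not.2 hj, if_false] at h2
    exact h2
  have h2 : ∀ j, j ∉ Set.range a → (c ᵥ* Y2) j = 0 := by
    intro j hj
    have h2 : ∑ i, c i * (if j ∈ Finset.univ.filter (fun j => j ∉ Set.range a) then Y2 i j
      else Y1 i j) = 0 := congrFun hc j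
    simp only [Finset.mem_filter, Finset.mem_univ, true_and, hj, not_false_eq_true, if_true] at h2
    exact h2
  have h3 : c ᵥ* Y1 = 0 := by
    funext j
    have h4 : Y1ᵀ j ∈ Submodule.span L (Set.range ((fun j => Y1ᵀ j) ∘ a)) := by
      rw [hspan]
      exact Submodule.subset_span ⟨j, rfl⟩
    have h5 : Submodule.span L (Set.range ((fun j => Y1ᵀ j) ∘ a)) ≤
        LinearMap.ker (dotProductBilin L L c) := by
      rw [Submodule.span_le]
      rintro _ ⟨x, rfl⟩
      exact h1 (a x) ⟨x, rfl⟩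
    exact h5 h4
  refine hrk c h3 ?_
  have h4 : Y1 *ᵥ (c ᵥ* Y2) = 0 := by
    rw [← Matrix.mulVec_transpose Y2, Matrix.mulVec_mulVec, hsym, ← Matrix.mulVec_mulVec,
      Matrix.mulVec_transpose, h3, Matrix.mulVec_zero]
  have h5 : ∑ x, (c ᵥ* Y2) (a x) • Y1ᵀ (a x) = 0 := by
    have h6 : ∑ j, (c ᵥ* Y2) j • Y1ᵀ j = 0 := by
      rw [← h4]
      funext i
      rw [Finset.sum_apply]
      exact Finset.sum_congr rfl fun j _ => mul_comm _ _
    rw [← h6]
    exact Fintype.sum_of_injective a ha _ _ (fun j hj => by rw [h2 j hj, zero_smul])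
      fun _ => rfl
  have h6 := Fintype.linearIndependent_iff.1 hli (fun x => (c ᵥ* Y2) (a x)) h5
  funext j
  by_cases hj : j ∈ Set.range a
  · obtain ⟨x, rfl⟩ := hj
    exact h6 x
  · exact h2 j hj

theorem blk [CharZero k] (Q11 Q12 : Matrix (Fin g) (Fin g) k) (hQT : Q11ᵀ = -Q11)
    (hu : IsUnit (Q12ᵀ).det) (Q : Matrix (Fin (2 * g)) (Fin (2 * g)) k)
    (hQb : Q = (fromBlocks Q11 Q12 (-Q12ᵀ) 0).submatrix (ee g).symm (ee g).symm) :
    ∃ (P J : Matrix (Fin (2 * g)) (Fin g) k) (Rr S : Matrix (Fin g) (Fin (2 * g)) k),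
      Rr * Q = Pᵀ ∧ Rr * P = 0 ∧ J * Rr + P * S = 1 ∧ S * Q = -Jᵀ ∧ Rr * J = 1 ∧
      ∀ i j, J i j = if i = lo j then 1 else 0 := by
  have half : (2⁻¹ : k) + 2⁻¹ = 1 := by
    rw [← two_mul]
    exact mul_inv_cancel₀ two_ne_zero
  refine ⟨(fromRows (-((2⁻¹ : k) • Q11)) Q12ᵀ).submatrix (ee g).symm id,
    (fromRows 1 0).submatrix (ee g).symm id,
    (fromCols 1 ((2⁻¹ : k) • Q11 * (Q12ᵀ)⁻¹)).submatrix id (ee g).symm,
    (fromCols 0 (Q12ᵀ)⁻¹).submatrix id (ee g).symm, ?_, ?_, ?_, ?_, ?_, ?_⟩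
  · rw [hQb, Matrix.submatrix_mul_equiv, Matrix.fromCols_mul_fromBlocks,
      Matrix.transpose_submatrix, Matrix.transpose_fromRows, Matrix.transpose_transpose,
      Matrix.mul_neg, Matrix.mul_assoc, Matrix.nonsing_inv_mul _ hu, Matrix.mul_one,
      Matrix.one_mul, Matrix.one_mul, Matrix.mul_zero, add_zero, Matrix.transpose_neg,
      Matrix.transpose_smul, hQT]
    congr 2
    rw [smul_neg, neg_neg, ← sub_eq_add_neg, sub_eq_iff_eq_add, ← add_smul, half, one_smul]
  · rw [Matrix.submatrix_mul_equiv, Matrix.fromCols_mul_fromRows, Matrix.one_mul,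
      Matrix.mul_assoc, Matrix.nonsing_inv_mul _ hu, Matrix.mul_one, neg_add_cancel]
    rfl
  · have h1 := Matrix.submatrix_mul_equiv (fromRows 1 0 : Matrix (Fin g ⊕ Fin g) (Fin g) k)
      (fromCols 1 ((2⁻¹ : k) • Q11 * (Q12ᵀ)⁻¹)) (ee g).symm (Equiv.refl _) (ee g).symm
    have h2 := Matrix.submatrix_mul_equiv (fromRows (-((2⁻¹ : k) • Q11)) Q12ᵀ)
      (fromCols 0 (Q12ᵀ)⁻¹) (ee g).symm (Equiv.refl _) (ee g).symm
    rw [Equiv.coe_refl] at h1 h2
    rw [h1, h2, Matrix.fromRows_mul_fromCols, Matrix.fromRows_mul_fromCols,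
      Matrix.mul_nonsing_inv _ hu, Matrix.one_mul, Matrix.one_mul, Matrix.zero_mul,
      Matrix.zero_mul, Matrix.mul_zero, Matrix.mul_zero]
    have h3 : ((fromBlocks 1 ((2⁻¹ : k) • Q11 * (Q12ᵀ)⁻¹) 0 0 :
        Matrix (Fin g ⊕ Fin g) (Fin g ⊕ Fin g) k).submatrix (ee g).symm (ee g).symm +
        (fromBlocks 0 (-((2⁻¹ : k) • Q11) * (Q12ᵀ)⁻¹) 0 1 :
        Matrix (Fin g ⊕ Fin g) (Fin g ⊕ Fin g) k).submatrix (ee g).symm (ee g).symm) =
        (fromBlocks 1 ((2⁻¹ : k) • Q11 * (Q12ᵀ)⁻¹) 0 0 +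
          fromBlocks 0 (-((2⁻¹ : k) • Q11) * (Q12ᵀ)⁻¹) 0 1 :
          Matrix (Fin g ⊕ Fin g) (Fin g ⊕ Fin g) k).submatrix (ee g).symm (ee g).symm := rfl
    rw [h3, Matrix.fromBlocks_add, Matrix.neg_mul, add_neg_cancel, add_zero, add_zero, zero_add,
      Matrix.fromBlocks_one, Matrix.submatrix_one_equiv]
  · rw [hQb, Matrix.submatrix_mul_equiv, Matrix.fromCols_mul_fromBlocks,
      Matrix.transpose_submatrix, Matrix.transpose_fromRows, Matrix.mul_neg,
      Matrix.nonsing_inv_mul _ hu, Matrix.zero_mul, Matrix.zero_mul, Matrix.mul_zero, add_zero,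
      zero_add]
    ext i j
    obtain ⟨b, rfl⟩ := (ee g).surjective j
    rcases b with b | b <;> simp
  · rw [Matrix.submatrix_mul_equiv, Matrix.fromCols_mul_fromRows, Matrix.one_mul,
      Matrix.mul_zero, add_zero]
    rfl
  · intro i j
    obtain ⟨a, rfl⟩ := (ee g).surjective i
    rcases a with a | a
    · rw [Matrix.submatrix_apply, Equiv.symm_apply_apply, ee_inl]
      simp only [Matrix.fromRows_apply_inl, id, Matrix.one_apply]
      congr 1
      simp [lo, Fin.ext_iff]
    · rw [Matrix.submatrix_apply, Equiv.symm_apply_apply, ee_inr]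
      simp only [Matrix.fromRows_apply_inr, id, Matrix.zero_apply]
      rw [if_neg]
      intro h
      have := congrArg Fin.val h
      simp only [hi, lo] at this
      omega

/-- Package L8. -/
theorem l_Lagr : L_Lagr := by
  intro k L _ _ _ _ g Q Y hQ hhi hdet hrk hiso hder h0
  classical
  have hQT : (Q.submatrix lo lo)ᵀ = -(Q.submatrix lo lo) := by
    ext i j
    exact congrFun (congrFun hQ (lo i)) (lo j)
  have h21 : Q.submatrix hi lo = -(Q.submatrix lo hi)ᵀ := by
    ext i j
    have := congrFun (congrFun hQ (hi i)) (lo j)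
    simp only [Matrix.transpose_apply, Matrix.neg_apply] at this
    simp only [Matrix.submatrix_apply, Matrix.neg_apply, Matrix.transpose_apply, this,
      neg_neg]
  have hu : IsUnit ((Q.submatrix lo hi)ᵀ).det := by
    rw [Matrix.det_transpose]
    exact hdet.isUnit
  have hQb : Q = (fromBlocks (Q.submatrix lo lo) (Q.submatrix lo hi) (-(Q.submatrix lo hi)ᵀ) 0).submatrix
      (ee g).symm (ee g).symm := by
    rw [← h21, ← hhi]
    exact blocks Q
  obtain ⟨P, J, Rr, S, e1, e2, e3, e4, e5, hJ⟩ := blk _ _ hQT hu Q hQb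
  set φ := algebraMap k L with hφ
  have m1 : Rr.map φ * Q.map φ = (P.map φ)ᵀ := by
    rw [← Matrix.map_mul, e1, Matrix.transpose_map]
  have m2 : Rr.map φ * P.map φ = 0 := by
    rw [← Matrix.map_mul, e2, Matrix.map_zero _ (map_zero φ)]
  have m3 : J.map φ * Rr.map φ + P.map φ * S.map φ = 1 := by
    rw [← Matrix.map_mul, ← Matrix.map_mul, ← Matrix.map_add _ (map_add φ), e3,
      Matrix.map_one _ (map_zero φ) (map_one φ)]
  have m4 : S.map φ * Q.map φ = -(J.map φ)ᵀ := by
    rw [← Matrix.map_mul, e4, ← Matrix.transpose_map]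
    ext i j
    simp
  have m5 : Rr.map φ * J.map φ = 1 := by
    rw [← Matrix.map_mul, e5, Matrix.map_one _ (map_zero φ) (map_one φ)]
  have hJ' : ∀ (Z : Matrix (Fin g) (Fin (2 * g)) L) i j, (Z * J.map φ) i j = Z i (lo j) := by
    intro Z i j
    rw [Matrix.mul_apply, Finset.sum_eq_single (lo j)]
    · rw [Matrix.map_apply, hJ, if_pos rfl, map_one, mul_one]
    · intro l _ hl
      rw [Matrix.map_apply, hJ, if_neg hl, map_zero, mul_zero]
    · simp
  have hYd : Y = Y * J.map φ * Rr.map φ + Y * P.map φ * S.map φ := by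
    rw [Matrix.mul_assoc, Matrix.mul_assoc, ← Matrix.mul_add, m3, Matrix.mul_one]
  have hsym : (Y * J.map φ) * (Y * P.map φ)ᵀ = (Y * P.map φ) * (Y * J.map φ)ᵀ := by
    have h1 : Y * J.map φ * Rr.map φ = Y - Y * P.map φ * S.map φ := by
      rw [eq_sub_iff_add_eq]
      exact hYd.symm
    calc (Y * J.map φ) * (Y * P.map φ)ᵀ
        = (Y * J.map φ * Rr.map φ) * Q.map φ * Yᵀ := by
          rw [Matrix.transpose_mul, ← m1]
          simp only [Matrix.mul_assoc]
      _ = Y * Q.map φ * Yᵀ - Y * P.map φ * (S.map φ * Q.map φ) * Yᵀ := by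
          rw [h1, Matrix.sub_mul, Matrix.sub_mul]
          simp only [Matrix.mul_assoc]
      _ = (Y * P.map φ) * (Y * J.map φ)ᵀ := by
          rw [hiso, m4, Matrix.mul_neg, Matrix.neg_mul, zero_sub, neg_neg, Matrix.transpose_mul]
          simp only [Matrix.mul_assoc]
  obtain ⟨I, hI⟩ := mixed (Y * J.map φ) (Y * P.map φ) hsym (by
    intro c h1 h2
    apply hrk
    rw [hYd, Matrix.vecMul_add, ← Matrix.vecMul_vecMul, ← Matrix.vecMul_vecMul _ (Y * P.map φ),
      h1, h2, Matrix.zero_vecMul, Matrix.zero_vecMul, add_zero])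
  apply hI
  have hMx : (Matrix.of fun i j => if j ∈ I then (Y * P.map φ) i j else (Y * J.map φ) i j :
      Matrix (Fin g) (Fin g) L) = Mx Y (P.map φ) I := by
    ext i j
    simp only [Mx, Matrix.of_apply, hJ']
  rw [hMx]
  clear hMx hI
  induction I using Finset.induction_on with
  | empty =>
    rw [← h0]
    congr 1
  | insert j I hj ih =>
    set E : Matrix (Fin g) (Fin g) k := Matrix.diagonal (Pi.single j 1) with hE
    have hET : Eᵀ = E := Matrix.diagonal_transpose _
    refine step Y P (P * E * Rr) j ?_ ?_ (hder (P * E * Rr) ?_) I hj ih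
    · intro i l
      have h1 : Y * (P * E * Rr).map φ * J.map φ = Y * P.map φ * E.map φ := by
        rw [Matrix.map_mul, Matrix.map_mul]
        simp only [Matrix.mul_assoc]
        rw [m5, Matrix.mul_one]
      have h2 := hJ' (Y * (P * E * Rr).map φ) i l
      rw [h1] at h2
      refine h2.symm.trans ?_
      rw [hE, Matrix.diagonal_map (map_zero φ), Matrix.mul_diagonal]
      by_cases hl : l = j
      · subst hl
        simp
        rfl
      · rw [if_neg hl]
        simp [hl]
    · rw [Matrix.map_mul, Matrix.map_mul]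
      simp only [Matrix.mul_assoc]
      rw [m2]
      simp
    · have h1 : Q * Rrᵀ = -P := by
        have h2 : (Rr * Q)ᵀ = P := by rw [e1, Matrix.transpose_transpose]
        rw [Matrix.transpose_mul, hQ, Matrix.neg_mul] at h2
        rw [← h2, neg_neg]
      rw [Matrix.mul_assoc (P * E) Rr Q, e1, Matrix.transpose_mul, Matrix.transpose_mul, hET,
        ← Matrix.mul_assoc Q, h1, Matrix.neg_mul, Matrix.mul_assoc, add_neg_cancel]

end main

end Pool.Agent.Helper13.BL
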