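import Pool.Agent.Helper13.BM.Ind
import Pool.Agent.Helper62.BM.LStm

/-!
# Transfer of the data of the families `y ^ 2 = f(x) - t` to larger fields and ultraproducts
-/

set_option autoImplicit false

open Polynomial Matrix Finset Filter

namespace Pool.Agent.Helper13.BL

open Pool.Agent.Helper62.BM Pool.Agent.Helper90.BM Pool.Agent.Helper61.BM Pool.Agent.Helper13.BM

section maps

variable {F K : Type} [Field F] [Field K] (ψ : F →+* K) {n : ℕ}

theorem Rq_map (Q : Matrix (Fin n) (Fin n) F) (kap : Fin n → F) :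
    (Rq Q kap).map ψ = Rq (Q.map ψ) fun j => ψ (kap j) := by
  ext i j
  simp [Rq]

theorem Bq_map (Q : Matrix (Fin n) (Fin n) F) (kap v : Fin n → F) (x : F) :
    (Bq Q kap v x).map ψ = Bq (Q.map ψ) (fun j => ψ (kap j)) (fun j => ψ (v j)) (ψ x) := by
  ext i j
  simp only [Bq, Matrix.map_apply, Matrix.of_apply]
  rw [map_mul, map_mul, map_inv₀, map_sub]

theorem ok_map {Q : Matrix (Fin n) (Fin n) F} {kap v : Fin n → F} (h : Ok Q kap v) :
    Ok (Q.map ψ) (fun j => ψ (kap j)) (fun j => ψ (v j)) := by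
  obtain ⟨h1, h2, h3, h4, h5⟩ := h
  refine ⟨?_, ?_, ?_, ?_, ?_⟩
  · rw [← Matrix.transpose_map, h1]
    ext i j
    simp
  · have : (Q.map ψ).det = ψ Q.det := (RingHom.map_det ψ Q).symm
    rw [this]
    exact (map_ne_zero ψ).2 h2
  · intro a b hab
    rw [Matrix.map_apply]
    exact (map_ne_zero ψ).2 (h3 a b hab)
  · intro j
    exact (map_ne_zero ψ).2 (h4 j)
  · intro a b hab
    exact h5 (ψ.injective hab)

/-- linear systems and determinants -/
theorem inj_iff_det {ι' : Type} [Fintype ι'] [DecidableEq ι'] (T : Matrix ι' ι' F) :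
    (∀ y : ι' → F, T *ᵥ y = 0 → y = 0) ↔ T.det ≠ 0 := by
  rw [Ne, ← Matrix.exists_mulVec_eq_zero_iff]
  push Not
  constructor
  · intro h y hy h0
    exact hy (h y h0)
  · intro h y h0
    by_contra hy
    exact h y hy h0

theorem E1_iff (Q : Matrix (Fin n) (Fin n) F) (kap : Fin n → F) (m : ℕ) :
    E1 Q kap m ↔ ((m : F) • (1 : Matrix (Fin n) (Fin n) F) + Rq Q kap).det ≠ 0 := by
  rw [← inj_iff_det]
  unfold E1
  refine forall_congr' fun y => ?_
  rw [Matrix.add_mulVec, Matrix.smul_mulVec, Matrix.one_mulVec]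

open scoped Kronecker in
theorem E2_iff (Q : Matrix (Fin n) (Fin n) F) (kap : Fin n → F) (m : ℕ) :
    E2 Q kap m ↔ ((m : F) • (1 : Matrix (Fin n × Fin n) (Fin n × Fin n) F) +
      (1 : Matrix (Fin n) (Fin n) F) ⊗ₖ Rq Q kap -
      (Rq Q kap)ᵀ ⊗ₖ (1 : Matrix (Fin n) (Fin n) F)).det ≠ 0 := by
  rw [← inj_iff_det]
  unfold E2
  have key : ∀ Y : Matrix (Fin n) (Fin n) F, ((m : F) • (1 : Matrix (Fin n × Fin n) (Fin n × Fin n) F) +
      (1 : Matrix (Fin n) (Fin n) F) ⊗ₖ Rq Q kap -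
      (Rq Q kap)ᵀ ⊗ₖ (1 : Matrix (Fin n) (Fin n) F)) *ᵥ Matrix.vec Y =
      Matrix.vec ((m : F) • Y + Rq Q kap * Y - Y * Rq Q kap) := by
    intro Y
    rw [Matrix.sub_mulVec, Matrix.add_mulVec, Matrix.smul_mulVec, Matrix.one_mulVec,
      Matrix.kronecker_mulVec_vec, Matrix.kronecker_mulVec_vec, Matrix.transpose_one,
      Matrix.mul_one, Matrix.transpose_transpose, Matrix.one_mul]
    rfl
  constructor
  · intro h y hy
    obtain ⟨Y, rfl⟩ : ∃ Y : Matrix (Fin n) (Fin n) F, Matrix.vec Y = y :=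
      ⟨Matrix.of fun i j => y (j, i), rfl⟩
    rw [key] at hy
    have h1 := h Y (by
      ext i j
      exact congrFun hy (j, i))
    rw [h1]
    rfl
  · intro h Y hY
    have h1 := h (Matrix.vec Y) (by rw [key, hY]; rfl)
    ext i j
    exact congrFun h1 (j, i)

theorem E1_map {Q : Matrix (Fin n) (Fin n) F} {kap : Fin n → F} {m : ℕ} (h : E1 Q kap m) :
    E1 (Q.map ψ) (fun j => ψ (kap j)) m := by
  rw [E1_iff] at h ⊢
  have h1 : (m : K) • (1 : Matrix (Fin n) (Fin n) K) + Rq (Q.map ψ) (fun j => ψ (kap j)) =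
      ((m : F) • (1 : Matrix (Fin n) (Fin n) F) + Rq Q kap).map ψ := by
    rw [← Rq_map]
    ext i j
    simp only [Matrix.add_apply, Matrix.smul_apply, Matrix.map_apply, Matrix.one_apply,
      smul_eq_mul, map_add, map_mul, map_natCast]
    split_ifs
    · rw [map_one]
    · rw [map_zero]
  rw [h1]
  have h2 : (((m : F) • (1 : Matrix (Fin n) (Fin n) F) + Rq Q kap).map ψ).det =
      ψ ((m : F) • (1 : Matrix (Fin n) (Fin n) F) + Rq Q kap).det := (RingHom.map_det ψ _).symm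
  rw [h2]
  exact (map_ne_zero ψ).2 h

open scoped Kronecker in
theorem E2_map {Q : Matrix (Fin n) (Fin n) F} {kap : Fin n → F} {m : ℕ} (h : E2 Q kap m) :
    E2 (Q.map ψ) (fun j => ψ (kap j)) m := by
  rw [E2_iff] at h ⊢
  set T : Matrix (Fin n × Fin n) (Fin n × Fin n) F := (m : F) • (1 : Matrix (Fin n × Fin n) (Fin n × Fin n) F) +
      (1 : Matrix (Fin n) (Fin n) F) ⊗ₖ Rq Q kap -
      (Rq Q kap)ᵀ ⊗ₖ (1 : Matrix (Fin n) (Fin n) F) with hT
  have h1 : (m : K) • (1 : Matrix (Fin n × Fin n) (Fin n × Fin n) K) +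
      (1 : Matrix (Fin n) (Fin n) K) ⊗ₖ Rq (Q.map ψ) (fun j => ψ (kap j)) -
      (Rq (Q.map ψ) (fun j => ψ (kap j)))ᵀ ⊗ₖ (1 : Matrix (Fin n) (Fin n) K) = T.map ψ := by
    rw [← Rq_map, hT]
    ext ⟨i, j⟩ ⟨a, b⟩
    simp only [Matrix.add_apply, Matrix.sub_apply, Matrix.smul_apply, Matrix.map_apply,
      Matrix.kroneckerMap_apply, Matrix.transpose_apply, smul_eq_mul, map_add, map_sub, map_mul,
      map_natCast, Matrix.one_apply]
    congr 2
    · congr 1
      split_ifs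
      · rw [map_one]
      · rw [map_zero]
    · congr 1
      split_ifs
      · rw [map_one]
      · rw [map_zero]
    · split_ifs
      · rw [map_one]
      · rw [map_zero]
  rw [h1]
  have h2 : (T.map ψ).det = ψ T.det := (RingHom.map_det ψ T).symm
  rw [h2]
  exact (map_ne_zero ψ).2 h

end maps

section up

variable (U : Ultrafilter ℕ) {F : ℕ → Type} [∀ i, Field (F i)] {n : ℕ}

theorem mk_Bq (Q : ∀ i, Matrix (Fin n) (Fin n) (F i)) (kap v : ∀ i, Fin n → F i) (x : ∀ i, F i) :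
    mkM U (fun i => Bq (Q i) (kap i) (v i) (x i)) =
      Bq (mkM U Q) (fun j => Helper62.BM.mk U fun i => kap i j)
        (fun j => Helper62.BM.mk U fun i => v i j) (Helper62.BM.mk U x) := by
  ext l m
  rw [mkM_apply]
  show Helper62.BM.mk U (fun i => Q i l m * kap i m * (x i - v i m)⁻¹) =
    Helper62.BM.mk U (fun i => Q i l m) * Helper62.BM.mk U (fun i => kap i m) *
      (Helper62.BM.mk U x - Helper62.BM.mk U fun i => v i m)⁻¹
  have h1 : (fun i => Q i l m * kap i m * (x i - v i m)⁻¹) =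
      ((fun i => Q i l m) * fun i => kap i m) * fun i => (((x - fun i => v i m) : ∀ i, F i) i)⁻¹ :=
    rfl
  rw [h1, map_mul, mk_inv, map_sub, map_mul]

theorem mkM_inv' (M : ∀ i, Matrix (Fin n) (Fin n) (F i))
    (hM : ∀ᶠ i in (U : Filter ℕ), (M i).det ≠ 0) :
    mkM U (fun i => (M i)⁻¹) = (mkM U M)⁻¹ := by
  refine (Matrix.inv_eq_right_inv ?_).symm
  rw [← mkM_mul, ← mk_one U (F := F) (n := n), mkM_eq]
  filter_upwards [hM] with i hi
  exact Matrix.mul_nonsing_inv _ (isUnit_iff_ne_zero.2 hi)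

theorem mk_Sm' {g : ℕ} (Q : ∀ i, Matrix (Fin (2 * g)) (Fin (2 * g)) (F i))
    (Y : ∀ i, Matrix (Fin g) (Fin (2 * g)) (F i))
    (hY : ∀ᶠ i in (U : Filter ℕ), ((Y i).submatrix id lo).det ≠ 0) :
    Sm (mkM U Q) (mkM U Y) = mkM U fun i => Sm (Q i) (Y i) := by
  unfold Sm
  rw [mkM_sub, mkM_mul, mkM_mul, mkM_inv' U _ hY, mkM_smul]
  have h2 : Helper62.BM.mk U (fun i => (2⁻¹ : F i)) = (2 : UP U F)⁻¹ := by
    have : (fun i => (2⁻¹ : F i)) = fun i => ((2 : ∀ i, F i) i)⁻¹ := rfl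
    rw [this, mk_inv, map_ofNat]
  rw [h2]
  rfl

theorem mk_frv' {g : ℕ} (Q : ∀ i, Matrix (Fin (2 * g)) (Fin (2 * g)) (F i))
    (Y : ∀ i, Matrix (Fin g) (Fin (2 * g)) (F i))
    (hY : ∀ᶠ i in (U : Filter ℕ), ((Y i).submatrix id lo).det ≠ 0) (s : Vars g) :
    frv (mkM U Q) (mkM U Y) s = Helper62.BM.mk U fun i => frv (Q i) (Y i) s := by
  rcases s with s | s
  · rfl
  · show Sm (mkM U Q) (mkM U Y) s.1.1 s.1.2 = _
    rw [mk_Sm' U Q Y hY]
    rfl

theorem rank_up {d : ℕ} (Y : ∀ i, Matrix (Fin d) (Fin n) (F i))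
    (hYr : ∀ i, ∀ c : Fin d → F i, c ᵥ* Y i = 0 → c = 0) :
    ∀ c : Fin d → UP U F, c ᵥ* mkM U Y = 0 → c = 0 := by
  intro c hc
  choose c' hc' using fun j => mk_surj U (c j)
  have h1 : ∀ l, ∀ᶠ i in (U : Filter ℕ), ((fun j => c' j i) ᵥ* Y i) l = 0 := by
    intro l
    have h2 : ∑ j, c j * mkM U Y j l = 0 := congrFun hc l
    have h3 : (fun i => ((fun j => c' j i) ᵥ* Y i) l) =
        fun i => ∑ j, (fun i => c' j i * Y i j l) i := rfl
    rw [← mk_eq_zero, h3, mk_sum, ← h2]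
    refine Finset.sum_congr rfl fun j _ => ?_
    rw [← hc' j, mkM_apply, ← map_mul]
    rfl
  have h2 : ∀ᶠ i in (U : Filter ℕ), (fun j => c' j i) = 0 := by
    filter_upwards [Filter.eventually_all.2 h1] with i hi
    exact hYr i _ (funext hi)
  funext j
  rw [← hc' j, Pi.zero_apply, mk_eq_zero]
  filter_upwards [h2] with i hi
  exact congrFun hi j

end up

end Pool.Agent.Helper13.BL
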